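import Pool.Agent.Helper15.T4.Stmts

set_option autoImplicit false

open Finset MeasureTheory

namespace Pool.Agent.Helper59.T4

open Pool.Agent.Helper15.T4

lemma GI_one (ι : Type) [Fintype ι] : GI (fun _ : ι → ℝ => (1 : ℂ)) = 1 := by
  unfold GI
  have h1 : ∀ x : ι → ℝ, (1 : ℂ) * ((Real.exp (-(nsq x) / 2) : ℝ) : ℂ) =
      ((∏ i, Real.exp (-(1 / 2 : ℝ) * x i ^ 2) : ℝ) : ℂ) := by
    intro x
    rw [one_mul, ← Real.exp_sum]
    congr 2
    unfold nsq
    rw [neg_div, Finset.sum_div, ← Finset.sum_neg_distrib]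
    refine Finset.sum_congr rfl (fun i _ => ?_)
    ring
  rw [integral_congr_ae (Filter.Eventually.of_forall h1), integral_complex_ofReal]
  have h2 : ∫ x : ι → ℝ, ∏ i, Real.exp (-(1 / 2 : ℝ) * x i ^ 2) =
      (Real.sqrt (2 * Real.pi)) ^ Fintype.card ι := by
    have := integral_fintype_prod_volume_eq_pow (ι := ι) (𝕜 := ℝ)
      (fun y : ℝ => Real.exp (-(1 / 2 : ℝ) * y ^ 2))
    rw [this, integral_gaussian]
    congr 2
    ring
  rw [h2, ← Complex.ofReal_mul]
  have hpos : (0 : ℝ) < 2 * Real.pi := by positivity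
  have h3 : (Real.sqrt (2 * Real.pi)) ^ Fintype.card ι =
      (2 * Real.pi) ^ ((Fintype.card ι : ℝ) / 2) := by
    rw [Real.sqrt_eq_rpow, ← Real.rpow_natCast, ← Real.rpow_mul hpos.le]
    congr 1
    ring
  rw [h3, neg_div, ← Real.rpow_add hpos, neg_add_cancel, Real.rpow_zero]
  simp

lemma PM_empty {H : Type} [Fintype H] : PM (∅ : Finset H) = {∅} := by
  classical
  ext M
  unfold PM
  simp only [Finset.mem_filter, Finset.mem_univ, true_and, Finset.mem_singleton]
  constructor
  · rintro ⟨_, h2, _⟩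
    rw [Finset.eq_empty_iff_forall_notMem]
    intro e he
    have hx : ∃ x, x ∈ e := by
      induction e using Sym2.ind with
      | _ a b => exact ⟨a, Sym2.mem_mk_left a b⟩
    obtain ⟨x, hx⟩ := hx
    have := h2 e he x hx
    simp at this
  · rintro rfl
    refine ⟨by simp, by simp, by simp⟩

theorem WICK (hREC : ST_REC) (hIBP : ST_IBP) : ST_WICK := by
  intro H ι _ _ _ s ℓ
  induction s using Finset.strongInduction with
  | _ s ih =>
    rcases s.eq_empty_or_nonempty with rfl | ⟨h, hh⟩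
    · rw [PM_empty]
      simp only [Finset.sum_singleton, Finset.prod_empty]
      exact (GI_one ι).symm
    · rw [hREC H s h (pairC ℓ) hh]
      have h1 : (fun x : ι → ℝ => ∏ h ∈ s, ∑ i, ℓ h i * (x i : ℂ)) =
          fun x : ι → ℝ => (∑ i, ℓ h i * (x i : ℂ)) * ∏ h' ∈ s.erase h, ∑ i, ℓ h' i * (x i : ℂ) := by
        funext x
        rw [Finset.mul_prod_erase s (fun h' => ∑ i, ℓ h' i * (x i : ℂ)) hh]
      rw [h1, hIBP H ι (s.erase h) ℓ (ℓ h)]
      refine Finset.sum_congr rfl (fun h' hh' => ?_)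
      have hss : (s.erase h).erase h' ⊂ s :=
        lt_of_le_of_lt (Finset.erase_subset _ _) (Finset.erase_ssubset hh)
      rw [ih _ hss]
      rfl

end Pool.Agent.Helper59.T4
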